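import Pool.Agent.H741.RS.Stm

/-!
# Project RS (helper741), job DIST: orbits are immersed

Proof plan by helper741 (docstring of the statement).
-/

set_option autoImplicit false
open scoped ComplexConjugate
open Filter Topology

namespace Pool.Agent.H224.RS.DIST

open Pool.Agent.H741.RS

variable {n : ℕ}

/-- operators -/
abbrev Op (n : ℕ) := V n →L[ℂ] V n

/-- the operator of a unitary map -/
noncomputable def cc (U : V n ≃ₗᵢ[ℂ] V n) : Op n := (U : V n →L[ℂ] V n)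

theorem sm_sub (a : ℝ) (X Y : Op n) : a • X - a • Y = a • (X - Y) := (smul_sub a X Y).symm

theorem sm_norm (a : ℝ) (X : Op n) : ‖a • X‖ = |a| * ‖X‖ := norm_smul a X

theorem cc_apply (U : V n ≃ₗᵢ[ℂ] V n) (z : V n) : cc U z = U z := rfl

theorem cc_mul (U W : V n ≃ₗᵢ[ℂ] V n) : cc (U * W) = cc U * cc W := by
  ext z
  rfl

theorem cc_one : cc (1 : V n ≃ₗᵢ[ℂ] V n) = 1 := by
  ext z
  rfl

theorem cc_norm_le (U : V n ≃ₗᵢ[ℂ] V n) : ‖cc U‖ ≤ 1 := by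
  refine ContinuousLinearMap.opNorm_le_bound _ zero_le_one fun z => ?_
  rw [cc_apply, U.norm_map, one_mul]

theorem cc_inj {U W : V n ≃ₗᵢ[ℂ] V n} (h : cc U = cc W) : U = W := by
  ext z i
  have h1 : cc U z = cc W z := by rw [h]
  rw [cc_apply, cc_apply] at h1
  rw [h1]

theorem cc_inv_mul (U : V n ≃ₗᵢ[ℂ] V n) : cc U⁻¹ * cc U = 1 := by
  rw [← cc_mul, inv_mul_cancel, cc_one]

theorem cc_mul_inv (U : V n ≃ₗᵢ[ℂ] V n) : cc U * cc U⁻¹ = 1 := by
  rw [← cc_mul, mul_inv_cancel, cc_one]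

theorem dist_right (U S : V n ≃ₗᵢ[ℂ] V n) : ‖cc (U * S⁻¹) - 1‖ = ‖cc U - cc S‖ := by
  apply le_antisymm
  · have e : cc (U * S⁻¹) - 1 = (cc U - cc S) * cc S⁻¹ := by
      rw [sub_mul, cc_mul_inv, cc_mul]
    rw [e]
    refine (norm_mul_le _ _).trans ?_
    exact mul_le_of_le_one_right (norm_nonneg _) (cc_norm_le _)
  · have e : cc U - cc S = (cc (U * S⁻¹) - 1) * cc S := by
      rw [sub_mul, one_mul, ← cc_mul, inv_mul_cancel_right]
    rw [e]
    refine (norm_mul_le _ _).trans ?_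
    exact mul_le_of_le_one_right (norm_nonneg _) (cc_norm_le _)

theorem dist_left (U W : V n ≃ₗᵢ[ℂ] V n) : ‖cc (W⁻¹ * U) - 1‖ ≤ ‖cc U - cc W‖ := by
  have e : cc (W⁻¹ * U) - 1 = cc W⁻¹ * (cc U - cc W) := by
    rw [mul_sub, cc_inv_mul, cc_mul]
  rw [e]
  refine (norm_mul_le _ _).trans ?_
  exact mul_le_of_le_one_left (norm_nonneg _) (cc_norm_le _)

theorem cc_sub_one_le (U : V n ≃ₗᵢ[ℂ] V n) : ‖cc U - 1‖ ≤ 2 := by
  rw [← cc_one]
  refine (norm_sub_le _ _).trans ?_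
  have h1 := cc_norm_le U
  have h2 := cc_norm_le (1 : V n ≃ₗᵢ[ℂ] V n)
  linarith

/-- the limits of unitary maps are unitary -/
theorem lim_unit {u : ℕ → V n ≃ₗᵢ[ℂ] V n} {T : Op n}
    (h : Tendsto (fun m => cc (u m)) atTop (𝓝 T)) : ∃ W : V n ≃ₗᵢ[ℂ] V n, cc W = T := by
  have h1 : ∀ z, ‖T z‖ = ‖z‖ := by
    intro z
    have h2 : Tendsto (fun m => ‖cc (u m) z‖) atTop (𝓝 ‖T z‖) :=
      ((ContinuousLinearMap.apply ℂ (V n) z).continuous.tendsto T |>.comp h).norm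
    refine tendsto_nhds_unique h2 ?_
    refine Tendsto.congr (fun m => ?_) tendsto_const_nhds
    rw [cc_apply, (u m).norm_map]
  refine ⟨LinearIsometry.toLinearIsometryEquiv ⟨T.toLinearMap, h1⟩ rfl, ?_⟩
  ext z i
  rfl

instance properOp : ProperSpace (Op n) := FiniteDimensional.proper ℂ (Op n)

/-- every sequence of unitary maps has a convergent subsequence -/
theorem subseq (u : ℕ → V n ≃ₗᵢ[ℂ] V n) : ∃ (T : Op n) (φ : ℕ → ℕ), StrictMono φ ∧
    Tendsto (fun m => cc (u (φ m))) atTop (𝓝 T) := by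
  have h1 : IsCompact (Metric.closedBall (0 : Op n) 1) := isCompact_closedBall _ _
  obtain ⟨T, -, φ, hφ, h2⟩ := h1.tendsto_subseq (x := fun m => cc (u m)) (fun m => by
    rw [mem_closedBall_zero_iff]
    exact cc_norm_le _)
  exact ⟨T, φ, hφ, h2⟩

section rep

variable {E : Type} [NormedAddCommGroup E] [InnerProductSpace ℝ E]

theorem hD' (R : Rep n E) (U : V n ≃ₗᵢ[ℂ] V n) (x : E) :
    ‖R.ρ U x - x - R.D (cc U - 1) x‖ ≤ R.C * ‖cc U - 1‖ ^ 2 * ‖x‖ := R.hD U x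

/-- the derivative is bounded -/
theorem D_bd (R : Rep n E) (x : E) : ∃ M : ℝ, 0 ≤ M ∧ ∀ T : Op n, ‖R.D T x‖ ≤ M * ‖T‖ := by
  obtain ⟨f, hf⟩ : ∃ f : Op n →ₗ[ℝ] E, ∀ T, f T = R.D T x := ⟨R.D.flip x, fun T => rfl⟩
  have hc : Continuous f := f.continuous_of_finiteDimensional
  obtain ⟨g, hg⟩ : ∃ g : Op n →L[ℝ] E, ∀ T, g T = f T := ⟨⟨f, hc⟩, fun _ => rfl⟩
  refine ⟨‖g‖, g.opNorm_nonneg, fun T => ?_⟩
  rw [← hf, ← hg]
  exact g.le_opNorm T

theorem rho_one (R : Rep n E) (x : E) : R.ρ 1 x = x := by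
  rw [map_one]
  rfl

theorem rho_mul (R : Rep n E) (U W : V n ≃ₗᵢ[ℂ] V n) (x : E) : R.ρ (U * W) x = R.ρ U (R.ρ W x) := by
  rw [map_mul]
  rfl

theorem rho_inv (R : Rep n E) {S : V n ≃ₗᵢ[ℂ] V n} {x : E} (h : R.ρ S x = x) : R.ρ S⁻¹ x = x := by
  conv_lhs => rw [← h]
  rw [← rho_mul, inv_mul_cancel, rho_one]

theorem rho_sub (R : Rep n E) (U W : V n ≃ₗᵢ[ℂ] V n) (x : E) :
    ‖R.ρ U x - R.ρ W x‖ = ‖R.ρ (W⁻¹ * U) x - x‖ := by
  have e : R.ρ U x - R.ρ W x = R.ρ W (R.ρ (W⁻¹ * U) x - x) := by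
    rw [map_sub, ← rho_mul, mul_inv_cancel_left]
  rw [e, LinearIsometryEquiv.norm_map]

theorem lip (R : Rep n E) (x : E) : ∃ M : ℝ, 0 ≤ M ∧ ∀ U W : V n ≃ₗᵢ[ℂ] V n,
    ‖R.ρ U x - R.ρ W x‖ ≤ M * ‖cc U - cc W‖ := by
  obtain ⟨M, hM, h⟩ := D_bd R x
  have hC := R.hC
  refine ⟨M + 2 * R.C * ‖x‖, by positivity, fun U W => ?_⟩
  rw [rho_sub]
  have h1 : ‖R.ρ (W⁻¹ * U) x - x‖ ≤ (M + 2 * R.C * ‖x‖) * ‖cc (W⁻¹ * U) - 1‖ := by
    have h2 := hD' R (W⁻¹ * U) x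
    have h3 := h (cc (W⁻¹ * U) - 1)
    have h4 := cc_sub_one_le (W⁻¹ * U)
    have h5 : ‖cc (W⁻¹ * U) - 1‖ ^ 2 ≤ 2 * ‖cc (W⁻¹ * U) - 1‖ := by
      rw [sq]
      exact mul_le_mul_of_nonneg_right h4 (norm_nonneg _)
    have h6 : R.C * ‖cc (W⁻¹ * U) - 1‖ ^ 2 * ‖x‖ ≤ R.C * (2 * ‖cc (W⁻¹ * U) - 1‖) * ‖x‖ :=
      mul_le_mul_of_nonneg_right (mul_le_mul_of_nonneg_left h5 hC) (norm_nonneg _)
    calc ‖R.ρ (W⁻¹ * U) x - x‖ = ‖(R.ρ (W⁻¹ * U) x - x - R.D (cc (W⁻¹ * U) - 1) x) +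
          R.D (cc (W⁻¹ * U) - 1) x‖ := by rw [sub_add_cancel]
      _ ≤ ‖R.ρ (W⁻¹ * U) x - x - R.D (cc (W⁻¹ * U) - 1) x‖ + ‖R.D (cc (W⁻¹ * U) - 1) x‖ :=
          norm_add_le _ _
      _ ≤ R.C * (2 * ‖cc (W⁻¹ * U) - 1‖) * ‖x‖ + M * ‖cc (W⁻¹ * U) - 1‖ :=
          add_le_add (h2.trans h6) h3
      _ = _ := by ring
  exact h1.trans (mul_le_mul_of_nonneg_left (dist_left U W) (by positivity))

/-- the stabiliser of `x` among the unitary maps which commute with `h` -/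
def InS (R : Rep n E) (h : Op n) (x : E) (S : V n ≃ₗᵢ[ℂ] V n) : Prop := Cm h S ∧ R.ρ S x = x

theorem Cm_mul {h : Op n} {U W : V n ≃ₗᵢ[ℂ] V n} (hU : Cm h U) (hW : Cm h W) : Cm h (U * W) := by
  intro z
  show h (U (W z)) = U (W (h z))
  rw [hU, hW]

theorem Cm_inv {h : Op n} {U : V n ≃ₗᵢ[ℂ] V n} (hU : Cm h U) : Cm h U⁻¹ := by
  intro z
  have h1 := hU (U⁻¹ z)
  have e1 : U (U⁻¹ z) = z := U.apply_symm_apply z
  rw [e1] at h1
  have h2 : U⁻¹ (h z) = U⁻¹ (U (h (U⁻¹ z))) := by rw [← h1]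
  rw [h2]
  exact (U.symm_apply_apply _).symm

theorem Cm_one (h : Op n) : Cm h 1 := fun _ => rfl

theorem InS_mul {R : Rep n E} {h : Op n} {x : E} {U W : V n ≃ₗᵢ[ℂ] V n} (hU : InS R h x U)
    (hW : InS R h x W) : InS R h x (U * W) :=
  ⟨Cm_mul hU.1 hW.1, by rw [rho_mul, hW.2, hU.2]⟩

/-- limits of approximate elements of the stabiliser -/
theorem lim_mem (R : Rep n E) (h : Op n) (x : E) {u : ℕ → V n ≃ₗᵢ[ℂ] V n} {T : Op n}
    (hu : ∀ m, Cm h (u m)) (hx : Tendsto (fun m => R.ρ (u m) x) atTop (𝓝 x))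
    (hT : Tendsto (fun m => cc (u m)) atTop (𝓝 T)) :
    ∃ S : V n ≃ₗᵢ[ℂ] V n, cc S = T ∧ InS R h x S := by
  obtain ⟨S, hS⟩ := lim_unit hT
  refine ⟨S, hS, ?_, ?_⟩
  · intro z
    have h1 : ∀ z, Tendsto (fun m => u m z) atTop (𝓝 (S z)) := by
      intro z
      have h2 := (ContinuousLinearMap.apply ℂ (V n) z).continuous.tendsto T |>.comp hT
      rw [← hS] at h2
      exact h2
    refine tendsto_nhds_unique ((h.continuous.tendsto _).comp (h1 z)) ?_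
    refine Tendsto.congr (fun m => ?_) (h1 (h z))
    exact (hu m z).symm
  · obtain ⟨M, hM, hl⟩ := lip R x
    have h1 : Tendsto (fun m => R.ρ (u m) x) atTop (𝓝 (R.ρ S x)) := by
      rw [tendsto_iff_norm_sub_tendsto_zero]
      have h2 : Tendsto (fun m => M * ‖cc (u m) - cc S‖) atTop (𝓝 (M * 0)) := by
        refine Tendsto.const_mul M ?_
        rw [← tendsto_iff_norm_sub_tendsto_zero, hS]
        exact hT
      rw [mul_zero] at h2
      exact squeeze_zero (fun m => norm_nonneg _) (fun m => hl _ _) h2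
    exact tendsto_nhds_unique h1 hx

/-- the nearest element of the stabiliser -/
theorem near (R : Rep n E) (h : Op n) (x : E) {U : V n ≃ₗᵢ[ℂ] V n} (hU : Cm h U) :
    ∃ W : V n ≃ₗᵢ[ℂ] V n, Cm h W ∧ R.ρ W x = R.ρ U x ∧
      (∃ S0, InS R h x S0 ∧ W = U * S0⁻¹) ∧ ∀ S, InS R h x S → ‖cc W - 1‖ ≤ ‖cc W - cc S‖ := by
  obtain ⟨Q, hQ⟩ : ∃ Q : Set (Op n), Q = {T | ∃ S : V n ≃ₗᵢ[ℂ] V n, cc S = T ∧ InS R h x S} :=
    ⟨_, rfl⟩
  have hcl : IsClosed Q := by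
    refine IsSeqClosed.isClosed ?_
    intro t T ht hT
    rw [hQ] at ht ⊢
    choose u hu using ht
    have e : (fun m => cc (u m)) = t := funext fun m => (hu m).1
    exact lim_mem R h x (fun m => (hu m).2.1)
      (tendsto_const_nhds.congr fun m => ((hu m).2.2).symm) (e ▸ hT)
  have hbd : Bornology.IsBounded Q := by
    refine (Metric.isBounded_closedBall (x := (0 : Op n)) (r := 1)).subset ?_
    intro T hT
    rw [hQ] at hT
    obtain ⟨S, hS, -⟩ := hT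
    rw [mem_closedBall_zero_iff, ← hS]
    exact cc_norm_le S
  have hcomp : IsCompact Q := Metric.isCompact_of_isClosed_isBounded hcl hbd
  have hne : Q.Nonempty := by
    rw [hQ]
    exact ⟨1, 1, cc_one, Cm_one h, rho_one R x⟩
  obtain ⟨T0, hT0, hmin⟩ := hcomp.exists_isMinOn hne (f := fun T => ‖cc U - T‖)
    (continuous_const.sub continuous_id).norm.continuousOn
  rw [hQ] at hT0
  obtain ⟨S0, hS0, hI⟩ := hT0
  refine ⟨U * S0⁻¹, Cm_mul hU (Cm_inv hI.1), by rw [rho_mul, rho_inv R hI.2], ⟨S0, hI, rfl⟩, ?_⟩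
  intro S hS
  have h1 : ‖cc U - T0‖ ≤ ‖cc U - cc (S * S0)‖ := by
    refine hmin ?_
    rw [hQ]
    exact ⟨S * S0, rfl, InS_mul hS hI⟩
  rw [dist_right, hS0]
  refine h1.trans (le_of_eq ?_)
  rw [← dist_right, ← dist_right]
  congr 3

theorem cc_pow (U : V n ≃ₗᵢ[ℂ] V n) (N : ℕ) : cc (U ^ N) = cc U ^ N := by
  induction N with
  | zero => rw [pow_zero, pow_zero, cc_one]
  | succ N ih => rw [pow_succ, pow_succ, cc_mul, ih]

theorem rho_pow (R : Rep n E) (U : V n ≃ₗᵢ[ℂ] V n) (x : E) (N : ℕ) :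
    ‖R.ρ (U ^ N) x - x‖ ≤ N * ‖R.ρ U x - x‖ := by
  induction N with
  | zero =>
    rw [pow_zero, rho_one, sub_self, norm_zero]
    positivity
  | succ N ih =>
    have e : R.ρ (U ^ (N + 1)) x - x = R.ρ (U ^ N) (R.ρ U x - x) + (R.ρ (U ^ N) x - x) := by
      rw [pow_succ, rho_mul, map_sub]
      abel
    rw [e]
    refine (norm_add_le _ _).trans ?_
    rw [LinearIsometryEquiv.norm_map]
    push_cast
    linarith

/-- skew-adjoint operators -/
def Skew (Y : Op n) : Prop := ∀ z w : V n, inner ℂ (Y z) w = - inner ℂ z (Y w)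

theorem skew_mem {Y : Op n} (hY : Skew Y) : Y ∈ skewAdjoint (Op n) := by
  have h1 : -Y = star Y := by
    rw [ContinuousLinearMap.star_eq_adjoint, ContinuousLinearMap.eq_adjoint_iff]
    intro z w
    rw [neg_apply, inner_neg_left, hY, neg_neg]
  rw [skewAdjoint.mem_iff, ← h1]

theorem skew_smul {Y : Op n} (hY : Skew Y) (s : ℝ) : Skew (s • Y) := by
  intro z w
  have e : ∀ z : V n, (s • Y) z = (s : ℂ) • Y z := fun z => rfl
  rw [e, e, inner_smul_left, inner_smul_right, hY, Complex.conj_ofReal]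
  ring

theorem exists_exp {Y : Op n} (hY : Skew Y) :
    ∃ e : ℝ → (V n ≃ₗᵢ[ℂ] V n), ∀ s, cc (e s) = NormedSpace.exp (s • Y) := by
  let +nondep : NormedAlgebra ℚ (Op n) := .restrictScalars ℚ ℂ (Op n)
  refine ⟨fun s => Unitary.linearIsometryEquiv ⟨NormedSpace.exp (s • Y),
    NormedSpace.exp_mem_unitary_of_mem_skewAdjoint (skew_mem (skew_smul hY s))⟩, fun s => rfl⟩

theorem exp_tend (Y : Op n) {t : ℕ → ℝ} (h0 : ∀ m, t m ≠ 0) (ht : Tendsto t atTop (𝓝 0)) :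
    Tendsto (fun m => (t m)⁻¹ • (NormedSpace.exp (t m • Y) - 1)) atTop (𝓝 Y) := by
  have h1 := hasDerivAt_exp_smul_const (𝕂 := ℝ) Y (0 : ℝ)
  rw [hasDerivAt_iff_tendsto_slope_zero] at h1
  have h2 : Tendsto t atTop (𝓝[≠] 0) :=
    tendsto_nhdsWithin_iff.2 ⟨ht, Filter.Eventually.of_forall fun m => h0 m⟩
  have h3 := h1.comp h2
  simp only [zero_smul, NormedSpace.exp_zero, one_mul, zero_add, Function.comp_def] at h3
  exact h3

theorem exp_stab (R : Rep n E) (h : Op n) (x : E) {Y : Op n} (hY : Skew Y) (hD : R.D Y x = 0)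
    (hc : ∀ z, h (Y z) = Y (h z)) : ∃ W : V n ≃ₗᵢ[ℂ] V n, cc W = NormedSpace.exp Y ∧ InS R h x W := by
  let +nondep : NormedAlgebra ℚ (Op n) := .restrictScalars ℚ ℂ (Op n)
  obtain ⟨e, he⟩ := exists_exp hY
  have he1 : cc (e 1) = NormedSpace.exp Y := by rw [he, one_smul]
  refine ⟨e 1, he1, ?_, ?_⟩
  · intro z
    have h1 : Commute h Y := by
      ext z i
      exact congrArg (fun y : V n => y i) (hc z)
    have h2 : h * NormedSpace.exp Y = NormedSpace.exp Y * h := h1.exp_right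
    rw [← he1] at h2
    have h3 := congrArg (fun T : Op n => T z) h2
    exact h3
  · have hpow : ∀ N : ℕ, (e (1 / ((N : ℝ) + 1))) ^ (N + 1) = e 1 := by
      intro N
      apply cc_inj
      rw [cc_pow, he, he1, ← NormedSpace.exp_nsmul]
      congr 1
      rw [← Nat.cast_smul_eq_nsmul ℝ, smul_smul]
      have : ((N + 1 : ℕ) : ℝ) * (1 / ((N : ℝ) + 1)) = 1 := by
        push_cast
        field_simp
      rw [this, one_smul]
    obtain ⟨t, ht⟩ : ∃ t : ℕ → ℝ, t = fun N : ℕ => 1 / ((N : ℝ) + 1) := ⟨_, rfl⟩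
    have ht0 : ∀ m, t m ≠ 0 := by
      intro m
      rw [ht]
      positivity
    have htt : Tendsto t atTop (𝓝 0) := by
      rw [ht]
      exact tendsto_one_div_add_atTop_nhds_zero_nat
    have ha := exp_tend Y ht0 htt
    have hT : Tendsto (fun m => NormedSpace.exp (t m • Y) - (1 : Op n)) atTop (𝓝 0) := by
      rw [tendsto_zero_iff_norm_tendsto_zero]
      have h1 : Tendsto (fun m => |t m| * ‖(t m)⁻¹ • (NormedSpace.exp (t m • Y) - 1)‖) atTop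
          (𝓝 (|0| * ‖Y‖)) := htt.abs.mul ha.norm
      rw [abs_zero, zero_mul] at h1
      refine h1.congr fun m => ?_
      rw [← sm_norm]
      exact congrArg norm (smul_inv_smul₀ (ht0 m) _)
    obtain ⟨M, hM, hMD⟩ := D_bd R x
    have hDa : Tendsto (fun m => ‖R.D ((t m)⁻¹ • (NormedSpace.exp (t m • Y) - 1)) x‖) atTop (𝓝 0) := by
      have h1 : Tendsto (fun m => M * ‖(t m)⁻¹ • (NormedSpace.exp (t m • Y) - 1) - Y‖) atTop
          (𝓝 (M * 0)) := by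
        refine Tendsto.const_mul M ?_
        rw [← tendsto_iff_norm_sub_tendsto_zero]
        exact ha
      rw [mul_zero] at h1
      refine squeeze_zero (fun m => norm_nonneg _) (fun m => ?_) h1
      refine le_trans (le_of_eq ?_) (hMD _)
      rw [map_sub, LinearMap.sub_apply, hD, sub_zero]
    have hlim : Tendsto (fun m => ‖R.D ((t m)⁻¹ • (NormedSpace.exp (t m • Y) - 1)) x‖ +
        R.C * (‖(t m)⁻¹ • (NormedSpace.exp (t m • Y) - 1)‖ * ‖NormedSpace.exp (t m • Y) - (1 : Op n)‖) *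
          ‖x‖) atTop (𝓝 (0 + R.C * (‖Y‖ * ‖(0 : Op n)‖) * ‖x‖)) :=
      hDa.add (((ha.norm.mul hT.norm).const_mul R.C).mul_const ‖x‖)
    rw [norm_zero, mul_zero, mul_zero, zero_mul, add_zero] at hlim
    have hle : ∀ m, ‖R.ρ (e 1) x - x‖ ≤ ‖R.D ((t m)⁻¹ • (NormedSpace.exp (t m • Y) - 1)) x‖ +
        R.C * (‖(t m)⁻¹ • (NormedSpace.exp (t m • Y) - 1)‖ * ‖NormedSpace.exp (t m • Y) - (1 : Op n)‖) *
          ‖x‖ := by
      intro m
      have h1 : ‖R.ρ (e 1) x - x‖ ≤ ((m + 1 : ℕ) : ℝ) * ‖R.ρ (e (t m)) x - x‖ := by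
        rw [← hpow m, ht]
        exact rho_pow R _ x (m + 1)
      have htp : 0 < (t m)⁻¹ := by
        rw [ht]
        positivity
      have h2 : ((m + 1 : ℕ) : ℝ) = (t m)⁻¹ := by
        rw [ht]
        push_cast
        field_simp
      rw [h2] at h1
      have h3 := hD' R (e (t m)) x
      rw [he] at h3
      have h4 : ‖R.ρ (e (t m)) x - x‖ ≤ ‖R.D (NormedSpace.exp (t m • Y) - 1) x‖ +
          R.C * ‖NormedSpace.exp (t m • Y) - (1 : Op n)‖ ^ 2 * ‖x‖ := by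
        calc ‖R.ρ (e (t m)) x - x‖ = ‖R.D (NormedSpace.exp (t m • Y) - 1) x +
              (R.ρ (e (t m)) x - x - R.D (NormedSpace.exp (t m • Y) - 1) x)‖ := by
                rw [add_sub_cancel]
          _ ≤ _ := (norm_add_le _ _).trans (add_le_add le_rfl h3)
      refine h1.trans ((mul_le_mul_of_nonneg_left h4 htp.le).trans (le_of_eq ?_))
      rw [map_smul, LinearMap.smul_apply, norm_smul, norm_smul, Real.norm_eq_abs, abs_of_pos htp]
      ring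
    have h5 : ‖R.ρ (e 1) x - x‖ ≤ 0 := ge_of_tendsto' hlim hle
    exact sub_eq_zero.1 (norm_le_zero_iff.1 h5)

theorem bad_seq (R : Rep n E) (h : Op n) (x : E) (W : ℕ → (V n ≃ₗᵢ[ℂ] V n))
    (hW1 : ∀ m, Cm h (W m))
    (hW2 : ∀ m : ℕ, ((m : ℝ) + 1) * ‖R.ρ (W m) x - x‖ < ‖cc (W m) - 1‖)
    (hW3 : ∀ m S, InS R h x S → ‖cc (W m) - 1‖ ≤ ‖cc (W m) - cc S‖) : False := by
  have hx : Tendsto (fun m => R.ρ (W m) x) atTop (𝓝 x) := by
    rw [tendsto_iff_norm_sub_tendsto_zero]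
    have h1 : Tendsto (fun m : ℕ => 2 * (1 / ((m : ℝ) + 1))) atTop (𝓝 (2 * 0)) :=
      tendsto_one_div_add_atTop_nhds_zero_nat.const_mul 2
    rw [mul_zero] at h1
    refine squeeze_zero (fun m => norm_nonneg _) (fun m => ?_) h1
    have h2 := hW2 m
    have h3 := cc_sub_one_le (W m)
    have h4 : (0 : ℝ) < (m : ℝ) + 1 := by positivity
    rw [mul_one_div, le_div_iff₀ h4]
    linarith
  obtain ⟨T, φ, hφ, hT⟩ := subseq W
  obtain ⟨S, hS, hSI⟩ := lim_mem R h x (fun m => hW1 (φ m)) (hx.comp hφ.tendsto_atTop) hT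
  have hd0 : Tendsto (fun m => ‖cc (W (φ m)) - 1‖) atTop (𝓝 0) := by
    refine squeeze_zero (fun m => norm_nonneg _) (fun m => hW3 (φ m) S hSI) ?_
    rw [hS, ← tendsto_iff_norm_sub_tendsto_zero]
    exact hT
  have hpos : ∀ m, 0 < ‖cc (W m) - 1‖ := by
    intro m
    refine lt_of_le_of_lt ?_ (hW2 m)
    positivity
  have hcomp : IsCompact (Metric.closedBall (0 : Op n) 1) := isCompact_closedBall _ _
  obtain ⟨Y, -, ψ, hψ, hY⟩ := hcomp.tendsto_subseq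
    (x := fun m => (‖cc (W (φ m)) - 1‖)⁻¹ • (cc (W (φ m)) - 1)) (fun m => by
      rw [mem_closedBall_zero_iff, norm_smul, norm_inv, norm_norm, inv_mul_cancel₀ (hpos _).ne'])
  obtain ⟨v, hv⟩ : ∃ v : ℕ → (V n ≃ₗᵢ[ℂ] V n), v = fun m => W (φ (ψ m)) := ⟨_, rfl⟩
  obtain ⟨δ, hδ⟩ : ∃ δ : ℕ → ℝ, δ = fun m => ‖cc (v m) - 1‖ := ⟨_, rfl⟩
  have hδp : ∀ m, 0 < δ m := by
    intro m
    rw [hδ, hv]
    exact hpos _
  have hδ0 : Tendsto δ atTop (𝓝 0) := by
    rw [hδ, hv]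
    exact hd0.comp hψ.tendsto_atTop
  have hy : Tendsto (fun m => (δ m)⁻¹ • (cc (v m) - 1)) atTop (𝓝 Y) := by
    rw [hδ, hv]
    exact hY
  have hv1 : ∀ m, Cm h (v m) := by
    intro m
    rw [hv]
    exact hW1 _
  have hv2 : ∀ m : ℕ, ((m : ℝ) + 1) * ‖R.ρ (v m) x - x‖ ≤ δ m := by
    intro m
    have h1 := hW2 (φ (ψ m))
    have h2 : m ≤ φ (ψ m) := (hψ.id_le m).trans (hφ.id_le _)
    have h3 : (m : ℝ) ≤ (φ (ψ m) : ℝ) := by exact_mod_cast h2
    rw [hδ, hv]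
    refine le_trans (mul_le_mul_of_nonneg_right (by linarith) (norm_nonneg _)) h1.le
  have hv3 : ∀ m S, InS R h x S → δ m ≤ ‖cc (v m) - cc S‖ := by
    intro m S hS
    rw [hδ, hv]
    exact hW3 _ S hS
  have hyz : ∀ z, Tendsto (fun m => ((δ m)⁻¹ • (cc (v m) - 1)) z) atTop (𝓝 (Y z)) := fun z =>
    ((ContinuousLinearMap.apply ℂ (V n) z).continuous.tendsto Y).comp hy
  -- `Y` is skew-adjoint
  have hskew : Skew Y := by
    intro z w
    have h1 : Tendsto (fun m => inner ℂ (((δ m)⁻¹ • (cc (v m) - 1)) z) w +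
        inner ℂ z (((δ m)⁻¹ • (cc (v m) - 1)) w) +
        (δ m : ℂ) * inner ℂ (((δ m)⁻¹ • (cc (v m) - 1)) z) (((δ m)⁻¹ • (cc (v m) - 1)) w)) atTop
        (𝓝 (inner ℂ (Y z) w + inner ℂ z (Y w) + ((0 : ℝ) : ℂ) * inner ℂ (Y z) (Y w))) := by
      refine (((hyz z).inner tendsto_const_nhds).add (tendsto_const_nhds.inner (hyz w))).add ?_
      exact ((Complex.continuous_ofReal.tendsto 0).comp hδ0).mul ((hyz z).inner (hyz w))
    have h2 : ∀ m, inner ℂ (((δ m)⁻¹ • (cc (v m) - 1)) z) w +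
        inner ℂ z (((δ m)⁻¹ • (cc (v m) - 1)) w) +
        (δ m : ℂ) * inner ℂ (((δ m)⁻¹ • (cc (v m) - 1)) z) (((δ m)⁻¹ • (cc (v m) - 1)) w) = 0 := by
      intro m
      have hne : (δ m : ℂ) ≠ 0 := by exact_mod_cast (hδp m).ne'
      have e1 : ∀ z, v m z = z + (δ m : ℂ) • (((δ m)⁻¹ • (cc (v m) - 1)) z) := by
        intro z
        have e2 : ((δ m)⁻¹ • (cc (v m) - 1)) z = ((δ m : ℂ))⁻¹ • (v m z - z) := by
          rw [← Complex.ofReal_inv]
          rfl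
        rw [e2, smul_smul, mul_inv_cancel₀ hne, one_smul, add_sub_cancel]
      have h3 := (v m).inner_map_map z w
      rw [e1 z, e1 w, inner_add_left, inner_add_right, inner_add_right, inner_smul_left,
        inner_smul_right, inner_smul_left, inner_smul_right, Complex.conj_ofReal] at h3
      refine mul_left_cancel₀ hne ?_
      rw [mul_zero]
      linear_combination h3
    have h4 := tendsto_nhds_unique h1 (tendsto_const_nhds.congr fun m => (h2 m).symm)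
    rw [Complex.ofReal_zero, zero_mul, add_zero] at h4
    exact eq_neg_of_add_eq_zero_left h4
  -- `Y` commutes with `h`
  have hcomm : ∀ z, h (Y z) = Y (h z) := by
    intro z
    have h1 := (h.continuous.tendsto _).comp (hyz z)
    refine tendsto_nhds_unique h1 ((hyz (h z)).congr fun m => ?_)
    have h2 := hv1 m z
    show ((δ m)⁻¹ : ℝ) • (v m (h z) - h z) = h (((δ m)⁻¹ : ℝ) • (v m z - z))
    have e3 : ∀ y : V n, ((δ m)⁻¹ : ℝ) • y = (((δ m)⁻¹ : ℝ) : ℂ) • y := fun y => rfl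
    rw [e3, e3, map_smul, map_sub, h2]
  -- `D Y x = 0`
  obtain ⟨M, hM, hMD⟩ := D_bd R x
  have hDY : R.D Y x = 0 := by
    have h1 : Tendsto (fun m => R.D ((δ m)⁻¹ • (cc (v m) - 1)) x) atTop (𝓝 (R.D Y x)) := by
      rw [tendsto_iff_norm_sub_tendsto_zero]
      have h2 : Tendsto (fun m => M * ‖(δ m)⁻¹ • (cc (v m) - 1) - Y‖) atTop (𝓝 (M * 0)) := by
        refine Tendsto.const_mul M ?_
        rw [← tendsto_iff_norm_sub_tendsto_zero]
        exact hy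
      rw [mul_zero] at h2
      refine squeeze_zero (fun m => norm_nonneg _) (fun m => ?_) h2
      rw [← LinearMap.sub_apply, ← map_sub]
      exact hMD _
    have h2 : Tendsto (fun m : ℕ => 1 / ((m : ℝ) + 1) + R.C * δ m * ‖x‖) atTop
        (𝓝 (0 + R.C * 0 * ‖x‖)) :=
      tendsto_one_div_add_atTop_nhds_zero_nat.add ((hδ0.const_mul R.C).mul_const ‖x‖)
    rw [mul_zero, zero_mul, add_zero] at h2
    have h3 : Tendsto (fun m => R.D ((δ m)⁻¹ • (cc (v m) - 1)) x) atTop (𝓝 0) := by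
      rw [tendsto_zero_iff_norm_tendsto_zero]
      refine squeeze_zero (fun m => norm_nonneg _) (fun m => ?_) h2
      have hp := hδp m
      have h4 := hD' R (v m) x
      have h5 : ‖cc (v m) - 1‖ = δ m := by rw [hδ]
      rw [h5] at h4
      have h6 : ‖R.D (cc (v m) - 1) x‖ ≤ ‖R.ρ (v m) x - x‖ + R.C * δ m ^ 2 * ‖x‖ := by
        calc ‖R.D (cc (v m) - 1) x‖ = ‖(R.ρ (v m) x - x) -
              (R.ρ (v m) x - x - R.D (cc (v m) - 1) x)‖ := by rw [sub_sub_cancel]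
          _ ≤ _ := (norm_sub_le _ _).trans (add_le_add le_rfl h4)
      have hm : (0 : ℝ) < (m : ℝ) + 1 := by positivity
      have h7 : ‖R.ρ (v m) x - x‖ ≤ δ m * (1 / ((m : ℝ) + 1)) := by
        rw [mul_one_div, le_div_iff₀ hm, mul_comm]
        exact hv2 m
      rw [map_smul, LinearMap.smul_apply, norm_smul, Real.norm_eq_abs, abs_of_pos (inv_pos.2 hp),
        inv_mul_le_iff₀ hp]
      calc ‖R.D (cc (v m) - 1) x‖ ≤ δ m * (1 / ((m : ℝ) + 1)) + R.C * δ m ^ 2 * ‖x‖ :=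
            h6.trans (add_le_add h7 le_rfl)
        _ = _ := by ring
    exact tendsto_nhds_unique h1 h3
  -- the contradiction
  have hex := exp_tend Y (fun m => (hδp m).ne') hδ0
  have hfin : Tendsto (fun m => ‖(δ m)⁻¹ • (cc (v m) - 1) -
      (δ m)⁻¹ • (NormedSpace.exp (δ m • Y) - 1)‖) atTop (𝓝 0) := by
    have h1 := (hy.sub hex).norm
    rw [sub_self, norm_zero] at h1
    exact h1
  have hge : ∀ m, 1 ≤ ‖(δ m)⁻¹ • (cc (v m) - 1) - (δ m)⁻¹ • (NormedSpace.exp (δ m • Y) - 1)‖ := by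
    intro m
    have hp := hδp m
    obtain ⟨Z, hZ, hZI⟩ := exp_stab R h x (skew_smul hskew (δ m))
      (by rw [map_smul, LinearMap.smul_apply, hDY, smul_zero]) (fun z => by
        have e3 : ∀ y : V n, (δ m • Y) y = ((δ m : ℝ) : ℂ) • Y y := fun y => rfl
        rw [e3, e3, map_smul, hcomm])
    have h1 := hv3 m Z hZI
    rw [hZ] at h1
    rw [sm_sub, sub_sub_sub_cancel_right, sm_norm, abs_of_pos (inv_pos.2 hp),
      le_inv_mul_iff₀ hp, mul_one]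
    exact h1
  have h9 : (1 : ℝ) ≤ 0 := ge_of_tendsto' hfin hge
  linarith

end rep

theorem t_DIST : S_DIST := by
  intro n E _ _ _ R h x _
  by_contra hcon
  push Not at hcon
  have key : ∀ m : ℕ, ∃ W : V n ≃ₗᵢ[ℂ] V n, Cm h W ∧
      ((m : ℝ) + 1) * ‖R.ρ W x - x‖ < ‖cc W - 1‖ ∧
      ∀ S, InS R h x S → ‖cc W - 1‖ ≤ ‖cc W - cc S‖ := by
    intro m
    obtain ⟨U, hU, hlt⟩ := hcon ((m : ℝ) + 1) (by positivity)
    obtain ⟨W, hW, hWU, ⟨S0, hS0, hWS⟩, hmin⟩ := near R h x hU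
    refine ⟨W, hW, ?_, hmin⟩
    have h1 := hlt S0 hS0.1 hS0.2
    rw [hWU, hWS]
    exact h1
  choose W hW1 hW2 hW3 using key
  exact bad_seq R h x W hW1 hW2 hW3

end Pool.Agent.H224.RS.DIST
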